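import Pool.Agent.H29.BH.Targets3

/-!
MP_52e316_nt, board bhr_modules, row R_NU: the numerical inequality.
-/

set_option autoImplicit false

open Real

namespace Pool.Agent.H91.BH

open Pool.Agent.H29.BH (Tb Wb R_NU)

namespace NU

/-- fourth powers -/
lemma pow4 {x : ℝ} (hx : 0 ≤ x) : (x ^ (1 / 4 : ℝ)) ^ 4 = x := by
  rw [← rpow_natCast, ← rpow_mul hx]
  norm_num

lemma pow2 {x : ℝ} (hx : 0 ≤ x) : (x ^ (1 / 2 : ℝ)) ^ 4 = x ^ 2 := by
  rw [← rpow_natCast, ← rpow_mul hx]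
  norm_num

/-- the fourth power of `Wb` -/
lemma wb4 {H P X A s g K₁ : ℝ} (hP : 0 < P) (hX : 0 < X) (hH : 0 < H) (hA : 0 < A) (hs : 0 < s)
    (hg : 0 < g) : Wb H P X A s g K₁ ^ 4 = A ^ 2 * min H (X / g) ^ 2 *
      (A * min H (X / g) / s + A * X / P) *
      (P * (1 + P ^ (-(1 / 2) : ℝ) * K₁ ^ 2) * (H + X / A)) := by
  have hm : 0 < min H (X / g) := lt_min hH (div_pos hX hg)
  have h1 : 0 ≤ P ^ (-(1 / 2) : ℝ) := rpow_nonneg hP.le _
  unfold Wb
  rw [mul_pow, mul_pow, mul_pow, pow2 (by positivity), pow4 (by positivity),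
    pow4 (by positivity)]
  field_simp

/-- in terms of logarithms -/
lemma main {c lam del p x eta gam al al0 hg b rho : ℝ} (hc : 0 ≤ c) (hl : 0 ≤ lam)
    (_hd : 0 ≤ del) (_hp : del ≤ p) (_hx : 0 ≤ x) (_he1 : 0 ≤ lam + eta)
    (he2 : eta ≤ lam + del / 2) (_hg0 : 0 ≤ gam) (hg1 : gam ≤ lam + x) (hal : al = 3 * lam + al0)
    (hal0 : (al0 = gam + del / 2 - eta - p / 4) ∨ al0 = del / 2)
    (hg2 : hg ≤ eta) (hg3 : hg ≤ x - gam) (hb1 : b ≤ lam + x)
    (hb2 : b ≤ c + lam + (x + eta - del / 2) ∨ b ≤ c + lam + del / 2)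
    (hr1 : x / 2 + (del / 4 + p * 3 / 16) ≤ rho) (hr2 : x / 2 + (del / 3 + p / 6) ≤ rho)
    (hr3 : x + del / 12 - p / 12 ≤ rho)
    (hb : 4 * b ≤ 3 * c + (6 * lam + 2 * al + 2 * hg + p) + (lam + del / 2 + hg - eta) + eta ∨
      4 * b ≤ 3 * c + (6 * lam + 2 * al + 2 * hg + p) + (lam + del / 2 + hg - eta) + (x - al) ∨
      4 * b ≤ 3 * c + (6 * lam + 2 * al + 2 * hg + p) + (al + x - p) + eta ∨
      4 * b ≤ 3 * c + (6 * lam + 2 * al + 2 * hg + p) + (al + x - p) + (x - al)) :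
    b ≤ 4 * c + 12 * lam + rho := by
  subst hal
  rcases hal0 with rfl | rfl
  · rcases hb with hb | hb | hb | hb
    · linarith
    · linarith
    · rcases hb2 with hb2 | hb2 <;> linarith
    · rcases hb2 with hb2 | hb2 <;> linarith
  · rcases hb with hb | hb | hb | hb <;> linarith

lemma log_prod2 {a b : ℝ} (ha : 0 < a) (hb : 0 < b) : log (a * b) = log a + log b :=
  log_mul ha.ne' hb.ne'

/-- the bound for the fourth power -/
lemma b4 {l d P X H A s g K₁ B : ℝ} (hl : 1 ≤ l) (hd : 0 < d) (hP : 0 < P) (hX : 0 < X)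
    (hH : 0 < H) (hA : 0 < A) (hs : 0 < s) (hg : 0 < g) (hK : 0 < K₁)
    (hK1 : K₁ ≤ l * P ^ (1 / 4 : ℝ)) (hs1 : A * H / (l * d ^ (1 / 2 : ℝ)) ≤ s) (hB0 : 0 ≤ B)
    (hB3 : B ≤ l * Wb H P X A s g K₁) :
    B ^ 4 ≤ 2 * (l ^ 6 * A ^ 2 * min H (X / g) ^ 2 * P) *
      (l * d ^ (1 / 2 : ℝ) * min H (X / g) / H + A * X / P) * (H + X / A) := by
  have hm : 0 < min H (X / g) := lt_min hH (div_pos hX hg)
  have hl0 : 0 < l := by linarith
  have hd2 : 0 < d ^ (1 / 2 : ℝ) := rpow_pos_of_pos hd _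
  have h1 : B ^ 4 ≤ (l * Wb H P X A s g K₁) ^ 4 := pow_le_pow_left₀ hB0 hB3 4
  rw [mul_pow, wb4 hP hX hH hA hs hg] at h1
  refine h1.trans ?_
  have h2 : A * min H (X / g) / s ≤ l * d ^ (1 / 2 : ℝ) * min H (X / g) / H := by
    rw [div_le_iff₀ (by positivity)] at hs1
    rw [div_le_div_iff₀ hs hH]
    have h3 : A * H * min H (X / g) ≤ s * (l * d ^ (1 / 2 : ℝ)) * min H (X / g) :=
      mul_le_mul_of_nonneg_right hs1 hm.le
    nlinarith [h3]
  have h3 : 1 + P ^ (-(1 / 2) : ℝ) * K₁ ^ 2 ≤ 2 * l ^ 2 := by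
    have h4 : K₁ ^ 2 ≤ l ^ 2 * P ^ (1 / 2 : ℝ) := by
      have h5 : K₁ ^ 2 ≤ (l * P ^ (1 / 4 : ℝ)) ^ 2 := pow_le_pow_left₀ hK.le hK1 2
      have h6 : (P ^ (1 / 4 : ℝ)) ^ 2 = P ^ (1 / 2 : ℝ) := by
        rw [← rpow_natCast, ← rpow_mul hP.le]
        norm_num
      rw [mul_pow, h6] at h5
      exact h5
    have h5 : P ^ (-(1 / 2) : ℝ) * K₁ ^ 2 ≤ P ^ (-(1 / 2) : ℝ) * (l ^ 2 * P ^ (1 / 2 : ℝ)) :=
      mul_le_mul_of_nonneg_left h4 (rpow_nonneg hP.le _)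
    have h6 : P ^ (-(1 / 2) : ℝ) * (l ^ 2 * P ^ (1 / 2 : ℝ)) = l ^ 2 := by
      have h7 : P ^ (-(1 / 2) : ℝ) * P ^ (1 / 2 : ℝ) = 1 := by
        rw [← rpow_add hP]
        norm_num
      linear_combination l ^ 2 * h7
    nlinarith
  have h4 : 0 ≤ P ^ (-(1 / 2) : ℝ) := rpow_nonneg hP.le _
  calc l ^ 4 * (A ^ 2 * min H (X / g) ^ 2 * (A * min H (X / g) / s + A * X / P) *
        (P * (1 + P ^ (-(1 / 2) : ℝ) * K₁ ^ 2) * (H + X / A)))
      ≤ l ^ 4 * (A ^ 2 * min H (X / g) ^ 2 *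
        (l * d ^ (1 / 2 : ℝ) * min H (X / g) / H + A * X / P) *
        (P * (2 * l ^ 2) * (H + X / A))) := by gcongr
    _ = _ := by ring

theorem nu (l d P X H g A K₁ s B : ℝ) (hl : 1 ≤ l) (hd : 1 ≤ d) (hdP : d ≤ P) (hX : 1 ≤ X)
    (hH : 0 < H) (hlH : 1 ≤ l * H) (hHd : H ≤ l * d ^ (1 / 2 : ℝ)) (hg : 1 ≤ g)
    (hgX : g ≤ l * X)
    (hA : A = l ^ 3 * max (g * d ^ (1 / 2 : ℝ) / (H * P ^ (1 / 4 : ℝ))) (d ^ (1 / 2 : ℝ)))
    (hK : 0 < K₁) (hK1 : K₁ ≤ l * P ^ (1 / 4 : ℝ)) (hs1 : A * H / (l * d ^ (1 / 2 : ℝ)) ≤ s)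
    (hB0 : 0 ≤ B) (hB1 : B ≤ l * X)
    (hB2 : B ≤ l * (X * H / d ^ (1 / 2 : ℝ) + d ^ (1 / 2 : ℝ)))
    (hB3 : B ≤ l * Wb H P X A s g K₁) :
    B ≤ 16 * l ^ 12 * X ^ (1 / 2 : ℝ) * Tb d P *
      (1 + X / (d * P) ^ (1 / 2 : ℝ)) ^ (1 / 2 : ℝ) := by
  have hl0 : 0 < l := by linarith
  have hd0 : 0 < d := by linarith
  have hP0 : 0 < P := by linarith
  have hX0 : 0 < X := by linarith
  have hg0 : 0 < g := by linarith
  have hd2 : 0 < d ^ (1 / 2 : ℝ) := rpow_pos_of_pos hd0 _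
  have hP4 : 0 < P ^ (1 / 4 : ℝ) := rpow_pos_of_pos hP0 _
  have hX2 : 0 < X ^ (1 / 2 : ℝ) := rpow_pos_of_pos hX0 _
  have hT1 : 0 < d ^ (1 / 4 : ℝ) * P ^ (3 / 16 : ℝ) :=
    mul_pos (rpow_pos_of_pos hd0 _) (rpow_pos_of_pos hP0 _)
  have hT2 : 0 < d ^ (1 / 3 : ℝ) * P ^ (1 / 6 : ℝ) :=
    mul_pos (rpow_pos_of_pos hd0 _) (rpow_pos_of_pos hP0 _)
  have hT : 0 < Tb d P := add_pos hT1 hT2
  have hdP2 : 0 < (d * P) ^ (1 / 2 : ℝ) := rpow_pos_of_pos (by positivity) _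
  have hY : 1 ≤ 1 + X / (d * P) ^ (1 / 2 : ℝ) := by
    have : 0 < X / (d * P) ^ (1 / 2 : ℝ) := by positivity
    linarith
  have hY1 : 1 ≤ (1 + X / (d * P) ^ (1 / 2 : ℝ)) ^ (1 / 2 : ℝ) :=
    one_le_rpow hY (by norm_num)
  have hR : 0 < X ^ (1 / 2 : ℝ) * Tb d P * (1 + X / (d * P) ^ (1 / 2 : ℝ)) ^ (1 / 2 : ℝ) := by
    positivity
  rcases hB0.eq_or_lt with h0 | hB
  · rw [← h0]
    positivity
  have hmx : 0 < max (g * d ^ (1 / 2 : ℝ) / (H * P ^ (1 / 4 : ℝ))) (d ^ (1 / 2 : ℝ)) :=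
    lt_of_lt_of_le hd2 (le_max_right _ _)
  have hA0 : 0 < A := by
    rw [hA]
    positivity
  have hs0 : 0 < s := lt_of_lt_of_le (by positivity) hs1
  have hm : 0 < min H (X / g) := lt_min hH (div_pos hX0 hg0)
  have h4 := b4 hl hd0 hP0 hX0 hH hA0 hs0 hg0 hK hK1 hs1 hB0 hB3
  have hlog2 : 0 ≤ log 2 := log_nonneg (by norm_num)
  have key := main (c := log 2) (lam := log l) (del := log d) (p := log P) (x := log X)
    (eta := log H) (gam := log g) (al := log A)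
    (al0 := log (max (g * d ^ (1 / 2 : ℝ) / (H * P ^ (1 / 4 : ℝ))) (d ^ (1 / 2 : ℝ))))
    (hg := log (min H (X / g))) (b := log B)
    (rho := log (X ^ (1 / 2 : ℝ) * Tb d P * (1 + X / (d * P) ^ (1 / 2 : ℝ)) ^ (1 / 2 : ℝ)))
    hlog2 (log_nonneg hl) (log_nonneg hd) (log_le_log hd0 hdP) (log_nonneg hX)
    ?_ ?_ (log_nonneg hg) ?_ ?_ ?_ ?_ ?_ ?_ ?_ ?_ ?_ ?_ ?_
  · -- conclusion
    have h5 : log (16 * l ^ 12 * (X ^ (1 / 2 : ℝ) * Tb d P *
        (1 + X / (d * P) ^ (1 / 2 : ℝ)) ^ (1 / 2 : ℝ))) = 4 * log 2 + 12 * log l +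
        log (X ^ (1 / 2 : ℝ) * Tb d P * (1 + X / (d * P) ^ (1 / 2 : ℝ)) ^ (1 / 2 : ℝ)) := by
      rw [log_prod2 (by positivity) hR, log_prod2 (by norm_num) (by positivity), log_pow,
        show (16 : ℝ) = 2 ^ 4 by norm_num, log_pow]
      norm_num
    rw [← h5] at key
    have h6 := (log_le_log_iff hB (by positivity)).1 key
    calc B ≤ _ := h6
      _ = _ := by ring
  · rw [← log_prod2 hl0 hH]
    exact log_nonneg hlH
  · have h5 := log_le_log hH hHd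
    rw [log_prod2 hl0 hd2, log_rpow hd0] at h5
    linarith
  · rw [← log_prod2 hl0 hX0]
    exact log_le_log hg0 hgX
  · rw [hA, log_prod2 (by positivity) hmx, log_pow]
    norm_num
  · rcases le_total (g * d ^ (1 / 2 : ℝ) / (H * P ^ (1 / 4 : ℝ))) (d ^ (1 / 2 : ℝ)) with h5 | h5
    · right
      rw [max_eq_right h5, log_rpow hd0]
      ring
    · left
      rw [max_eq_left h5, log_div (by positivity) (by positivity), log_prod2 hg0 hd2,
        log_prod2 hH hP4, log_rpow hd0, log_rpow hP0]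
      ring
  · exact log_le_log hm (min_le_left _ _)
  · rw [← log_div hX0.ne' hg0.ne']
    exact log_le_log hm (min_le_right _ _)
  · rw [← log_prod2 hl0 hX0]
    exact log_le_log hB hB1
  · rcases le_total (X * H / d ^ (1 / 2 : ℝ)) (d ^ (1 / 2 : ℝ)) with h5 | h5
    · right
      have h6 : B ≤ 2 * l * d ^ (1 / 2 : ℝ) := by nlinarith
      have h7 := log_le_log hB h6
      rw [log_prod2 (by positivity) hd2, log_prod2 (by norm_num) hl0, log_rpow hd0] at h7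
      linarith
    · left
      have h6 : B ≤ 2 * l * (X * H / d ^ (1 / 2 : ℝ)) := by nlinarith
      have h7 := log_le_log hB h6
      rw [log_prod2 (by positivity) (by positivity), log_prod2 (by norm_num) hl0,
        log_div (by positivity) hd2.ne', log_prod2 hX0 hH, log_rpow hd0] at h7
      linarith
  · have h5 : log (X ^ (1 / 2 : ℝ) * (d ^ (1 / 4 : ℝ) * P ^ (3 / 16 : ℝ))) =
        log X / 2 + (log d / 4 + log P * 3 / 16) := by
      rw [log_prod2 hX2 hT1, log_prod2 (rpow_pos_of_pos hd0 _) (rpow_pos_of_pos hP0 _),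
        log_rpow hX0, log_rpow hd0, log_rpow hP0]
      ring
    rw [← h5]
    refine log_le_log (by positivity) ?_
    calc X ^ (1 / 2 : ℝ) * (d ^ (1 / 4 : ℝ) * P ^ (3 / 16 : ℝ)) ≤ X ^ (1 / 2 : ℝ) * Tb d P := by
          unfold Tb
          gcongr
          linarith
      _ = X ^ (1 / 2 : ℝ) * Tb d P * 1 := (mul_one _).symm
      _ ≤ _ := by gcongr
  · have h5 : log (X ^ (1 / 2 : ℝ) * (d ^ (1 / 3 : ℝ) * P ^ (1 / 6 : ℝ))) =
        log X / 2 + (log d / 3 + log P / 6) := by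
      rw [log_prod2 hX2 hT2, log_prod2 (rpow_pos_of_pos hd0 _) (rpow_pos_of_pos hP0 _),
        log_rpow hX0, log_rpow hd0, log_rpow hP0]
      ring
    rw [← h5]
    refine log_le_log (by positivity) ?_
    calc X ^ (1 / 2 : ℝ) * (d ^ (1 / 3 : ℝ) * P ^ (1 / 6 : ℝ)) ≤ X ^ (1 / 2 : ℝ) * Tb d P := by
          unfold Tb
          gcongr
          linarith
      _ = X ^ (1 / 2 : ℝ) * Tb d P * 1 := (mul_one _).symm
      _ ≤ _ := by gcongr
  · have h6 : 0 < X / (d * P) ^ (1 / 2 : ℝ) := by positivity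
    have h7 : 0 < (X / (d * P) ^ (1 / 2 : ℝ)) ^ (1 / 2 : ℝ) := rpow_pos_of_pos h6 _
    have h5 : log (X ^ (1 / 2 : ℝ) * (d ^ (1 / 3 : ℝ) * P ^ (1 / 6 : ℝ)) *
        (X / (d * P) ^ (1 / 2 : ℝ)) ^ (1 / 2 : ℝ)) = log X + log d / 12 - log P / 12 := by
      rw [log_prod2 (by positivity) h7, log_prod2 hX2 hT2,
        log_prod2 (rpow_pos_of_pos hd0 _) (rpow_pos_of_pos hP0 _),
        log_rpow hX0, log_rpow hd0, log_rpow hP0, log_rpow h6, log_div hX0.ne' hdP2.ne',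
        log_rpow (by positivity), log_prod2 hd0 hP0]
      ring
    rw [← h5]
    refine log_le_log (by positivity) ?_
    have h8 : d ^ (1 / 3 : ℝ) * P ^ (1 / 6 : ℝ) ≤ Tb d P := by
      unfold Tb
      linarith
    have h9 : (X / (d * P) ^ (1 / 2 : ℝ)) ^ (1 / 2 : ℝ) ≤
        (1 + X / (d * P) ^ (1 / 2 : ℝ)) ^ (1 / 2 : ℝ) :=
      rpow_le_rpow h6.le (by linarith) (by norm_num)
    gcongr
  · have h5 : log B * 4 = log (B ^ 4) := by
      rw [log_pow]
      norm_num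
      ring
    have hE1 : 0 < l * d ^ (1 / 2 : ℝ) * min H (X / g) / H := by positivity
    have hE2 : 0 < A * X / P := by positivity
    have hE4 : 0 < X / A := by positivity
    have hG : 0 < l ^ 6 * A ^ 2 * min H (X / g) ^ 2 * P := by positivity
    have e0 : log (l ^ 6 * A ^ 2 * min H (X / g) ^ 2 * P) =
        6 * log l + 2 * log A + 2 * log (min H (X / g)) + log P := by
      rw [log_prod2 (by positivity) hP0, log_prod2 (by positivity) (by positivity),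
        log_prod2 (by positivity) (by positivity), log_pow, log_pow, log_pow]
      norm_num
    have e1 : log (l * d ^ (1 / 2 : ℝ) * min H (X / g) / H) =
        log l + log d / 2 + log (min H (X / g)) - log H := by
      rw [log_div (by positivity) hH.ne', log_prod2 (by positivity) hm,
        log_prod2 hl0 hd2, log_rpow hd0]
      ring
    have e2 : log (A * X / P) = log A + log X - log P := by
      rw [log_div (by positivity) hP0.ne', log_prod2 hA0 hX0]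
    have e4 : log (X / A) = log X - log A := log_div hX0.ne' hA0.ne'
    have e8 : log 8 = 3 * log 2 := by
      rw [show (8 : ℝ) = 2 ^ 3 by norm_num, log_pow]
      norm_num
    have fin : ∀ E E' : ℝ, 0 < E → 0 < E' →
        B ^ 4 ≤ 8 * (l ^ 6 * A ^ 2 * min H (X / g) ^ 2 * P) * E * E' →
        4 * log B ≤ 3 * log 2 + (6 * log l + 2 * log A + 2 * log (min H (X / g)) + log P) +
          log E + log E' := by
      intro E E' hE hE' h
      have h6 := log_le_log (by positivity) h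
      rw [log_prod2 (by positivity) hE', log_prod2 (by positivity) hE,
        log_prod2 (by norm_num) hG, e0, e8, ← h5] at h6
      linarith
    rcases le_total (l * d ^ (1 / 2 : ℝ) * min H (X / g) / H) (A * X / P) with h6 | h6 <;>
      rcases le_total H (X / A) with h7 | h7
    · right; right; right
      rw [← e2, ← e4]
      refine fin _ _ hE2 hE4 (h4.trans ?_)
      calc 2 * (l ^ 6 * A ^ 2 * min H (X / g) ^ 2 * P) *
            (l * d ^ (1 / 2 : ℝ) * min H (X / g) / H + A * X / P) * (H + X / A)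
          ≤ 2 * (l ^ 6 * A ^ 2 * min H (X / g) ^ 2 * P) *
            (A * X / P + A * X / P) * (X / A + X / A) := by gcongr
        _ = _ := by ring
    · right; right; left
      rw [← e2]
      refine fin _ _ hE2 hH (h4.trans ?_)
      calc 2 * (l ^ 6 * A ^ 2 * min H (X / g) ^ 2 * P) *
            (l * d ^ (1 / 2 : ℝ) * min H (X / g) / H + A * X / P) * (H + X / A)
          ≤ 2 * (l ^ 6 * A ^ 2 * min H (X / g) ^ 2 * P) *
            (A * X / P + A * X / P) * (H + H) := by gcongr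
        _ = _ := by ring
    · right; left
      rw [← e1, ← e4]
      refine fin _ _ hE1 hE4 (h4.trans ?_)
      calc 2 * (l ^ 6 * A ^ 2 * min H (X / g) ^ 2 * P) *
            (l * d ^ (1 / 2 : ℝ) * min H (X / g) / H + A * X / P) * (H + X / A)
          ≤ 2 * (l ^ 6 * A ^ 2 * min H (X / g) ^ 2 * P) *
            (l * d ^ (1 / 2 : ℝ) * min H (X / g) / H + l * d ^ (1 / 2 : ℝ) * min H (X / g) / H) *
              (X / A + X / A) := by gcongr
        _ = _ := by ring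
    · left
      rw [← e1]
      refine fin _ _ hE1 hH (h4.trans ?_)
      calc 2 * (l ^ 6 * A ^ 2 * min H (X / g) ^ 2 * P) *
            (l * d ^ (1 / 2 : ℝ) * min H (X / g) / H + A * X / P) * (H + X / A)
          ≤ 2 * (l ^ 6 * A ^ 2 * min H (X / g) ^ 2 * P) *
            (l * d ^ (1 / 2 : ℝ) * min H (X / g) / H + l * d ^ (1 / 2 : ℝ) * min H (X / g) / H) *
              (H + H) := by gcongr
        _ = _ := by ring

end NU

theorem pf_R_NU : R_NU := fun l d P X H g A K₁ s B hl hd hdP hX hH hlH hHd hg hgX hA hK hK1 hs1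
    hB0 hB1 hB2 hB3 => NU.nu l d P X H g A K₁ s B hl hd hdP hX hH hlH hHd hg hgX hA hK hK1 hs1
  hB0 hB1 hB2 hB3

end Pool.Agent.H91.BH
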